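import Pool.Agent.H606.OS.Stm2

open MeasureTheory Filter Topology Finset
open Pool.Agent.H606.OS

namespace Pool.Agent.H788.OS.OPT

theorem t_OPT : S_OPT := by
  intro C hC
  refine ⟨2 * C + 144, by positivity, ?_⟩
  intro A B δ hA hAB hδ0 hδ1
  have hB : 0 < B := hA.trans hAB
  set x : ℝ := B ^ (-(1 / 4 : ℝ)) with hx
  set y : ℝ := δ ^ (1 / 3 : ℝ) with hy
  have hx0 : 0 < x := Real.rpow_pos_of_pos hB _
  have hy0 : 0 ≤ y := Real.rpow_nonneg hδ0 _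
  have hx2 : B ^ (-(1 / 2 : ℝ)) = x ^ 2 := by
    rw [hx, ← Real.rpow_natCast, ← Real.rpow_mul hB.le]
    norm_num
  have hx4 : x ^ 4 * B = 1 := by
    rw [hx, ← Real.rpow_natCast, ← Real.rpow_mul hB.le]
    norm_num
    rw [Real.rpow_neg_one]
    exact inv_mul_cancel₀ hB.ne'
  have hy2 : δ ^ (2 / 3 : ℝ) = y ^ 2 := by
    rw [hy, ← Real.rpow_natCast, ← Real.rpow_mul hδ0]
    norm_num
  have hy3 : y ^ 3 = δ := by
    rw [hy, ← Real.rpow_natCast, ← Real.rpow_mul hδ0]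
    norm_num
  rw [hx2, hy2]
  have hA3 : 0 < A ^ 3 := by positivity
  by_cases h1 : 1 / 12 < x
  · left
    have h2 : (1 / 12 : ℝ) ^ 2 < x ^ 2 := pow_lt_pow_left₀ h1 (by norm_num) (by norm_num)
    have h3 : 0 ≤ y ^ 2 := by positivity
    have h4 : (1 : ℝ) / 144 ≤ A ^ 3 + x ^ 2 + y ^ 2 := by
      norm_num at h2 ⊢
      linarith
    nlinarith
  by_cases h2 : 1 / 12 < y
  · left
    have h2 : (1 / 12 : ℝ) ^ 2 < y ^ 2 := pow_lt_pow_left₀ h2 (by norm_num) (by norm_num)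
    have h3 : 0 ≤ x ^ 2 := by positivity
    have h4 : (1 : ℝ) / 144 ≤ A ^ 3 + x ^ 2 + y ^ 2 := by
      norm_num at h2 ⊢
      linarith
    nlinarith
  push Not at h1 h2
  right
  set b : ℝ := max x y with hb
  have hbx : x ≤ b := le_max_left _ _
  have hby : y ≤ b := le_max_right _ _
  have hb0 : 0 < b := hx0.trans_le hbx
  have hb2 : b ^ 2 ≤ x ^ 2 + y ^ 2 := by
    rcases le_total x y with h | h
    · rw [hb, max_eq_right h]; nlinarith [sq_nonneg x]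
    · rw [hb, max_eq_left h]; nlinarith [sq_nonneg y]
  have hbB : 1 / (b ^ 2 * B) ≤ x ^ 2 := by
    rw [div_le_iff₀ (by positivity)]
    have h3 : x ^ 2 ≤ b ^ 2 := pow_le_pow_left₀ hx0.le hbx 2
    calc (1 : ℝ) = x ^ 2 * (x ^ 2 * B) := by rw [← hx4]; ring
      _ ≤ x ^ 2 * (b ^ 2 * B) := by gcongr
  have hbδ : δ / b ≤ y ^ 2 := by
    rw [div_le_iff₀ hb0, ← hy3]
    calc y ^ 3 = y ^ 2 * y := by ring
      _ ≤ y ^ 2 * b := by gcongr
  refine ⟨b, hb0, max_le h1 h2, ?_⟩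
  have h5 : A ^ 3 + b ^ 2 + 1 / (b ^ 2 * B) + δ / b ≤ 2 * (A ^ 3 + x ^ 2 + y ^ 2) := by
    nlinarith [sq_nonneg x, sq_nonneg y]
  have h6 : 0 ≤ A ^ 3 + x ^ 2 + y ^ 2 := by positivity
  calc C * (A ^ 3 + b ^ 2 + 1 / (b ^ 2 * B) + δ / b) ≤ C * (2 * (A ^ 3 + x ^ 2 + y ^ 2)) :=
        mul_le_mul_of_nonneg_left h5 hC.le
    _ ≤ (2 * C + 144) * (A ^ 3 + x ^ 2 + y ^ 2) := by nlinarith

end Pool.Agent.H788.OS.OPT
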